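import Pool.Agent.Lib.P2ec0f3n.Final

/-!
# MP_2ec0f3_pr: the speed of the biased walk on percolation is largest at `p = 1`, for an open set
of bias directions

For every `d ≥ 2` and every `λ > 0` there are `ε₀ > 0` and `κ > 0` such that for every unit vector
`ℓ` with `| |ℓ_i| - |ℓ_j| | ≤ ε₀` for all `i, j` and every `p ∈ (p_c, 1]` one has
`v(λ,1)·ℓ > 0` and `v(λ,p)·ℓ ≤ v(λ,1)·ℓ / (1 + κ (1 - p))`; so `v(λ,p)·ℓ < v(λ,1)·ℓ` for every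
`p ∈ (p_c, 1)`.
-/

open Pool.Agent.P2ec0f3
open scoped unitInterval

namespace Pool.Agent.Results.MP_2ec0f3_pr.NearDiagonalBias

theorem result {d : ℕ} (hd : 2 ≤ d) (lam : ℝ) (hlam : 0 < lam) :
    ∃ ε₀ : ℝ, 0 < ε₀ ∧ ∃ κ : ℝ, 0 < κ ∧
      ∀ ℓ : Fin d → ℝ, ∑ j, ℓ j ^ 2 = 1 → (∀ i j, |ℓ i| - |ℓ j| ≤ ε₀) →
      ∀ (p : I), criticalParam d < p → ∀ v v₁ : Fin d → ℝ,
      IsVelocity ℓ lam p v → IsVelocity ℓ lam 1 v₁ →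
        0 < ∑ j, v₁ j * ℓ j ∧
        ∑ j, v j * ℓ j ≤ (∑ j, v₁ j * ℓ j) / (1 + κ * (1 - (p : ℝ))) := by
  obtain ⟨ε₀, hε₀, κ, hκ, h⟩ := unif_diagonal_speed (d := d) (by omega) hlam
  refine ⟨ε₀, hε₀, κ, hκ, fun ℓ hunit hosc p hp v v₁ hv hv₁ => ?_⟩
  obtain ⟨h1, h2⟩ := h ℓ hunit hosc p hp v v₁ hv hv₁
  refine ⟨h1, ?_⟩
  have h3 : 0 < 1 + κ * (1 - (p : ℝ)) := by
    have : 0 ≤ κ * (1 - (p : ℝ)) := mul_nonneg hκ.le (by linarith [p.2.2])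
    linarith
  rw [le_div_iff₀ h3]
  linarith

end Pool.Agent.Results.MP_2ec0f3_pr.NearDiagonalBias
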