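import Pool.Agent.Lib.P2ec0h.AllJ
import Pool.Agent.Lib.P2ec0u.MainU

/-!
# MP_2ec0f3_pr: strong bias, every direction, every `p ∈ (p_c, 1)` against `p' = 1`

(1) There are `λ₀(d)` and `c(d) > 0` with `v(λ,p)·ℓ + c exp (-2 λ) (1 - p) ≤ v(λ,1)·ℓ` for every
unit vector `ℓ`, every `λ ≥ λ₀` and every `p ∈ (p_c, 1]`.
(2) Explicit form: let `M` be the largest `|ℓ_j|` and let `δ > 0` be such that every `|ℓ_j|` is
`M` or at most `M - δ`.  If `exp (λ δ) ≥ 30000 d⁶ (192 d⁴)^(2d)`, then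
`v(λ,p)·ℓ + (M - v(λ,1)·ℓ) (1 - p) / (12 d²) ≤ v(λ,1)·ℓ < M`.
(3) If the largest `|ℓ_j|` is unique, then `exp (λ δ) ≥ 30 d²` is enough and
`v(λ,p)·ℓ + (δ/8) (1 - p) ≤ v(λ,1)·ℓ`.
-/

open Pool.Agent.P2ec0f3 Pool.Agent.P2ec0g Pool.Agent.P2ec0h
open scoped unitInterval

namespace Pool.Agent.Results.MP_2ec0f3_pr.StrongBias

lemma unique_case {d : ℕ} (hd : 2 ≤ d) (ℓ : Fin d → ℝ) (hunit : ∑ j, ℓ j ^ 2 = 1)
    (i : Fin d) (δ : ℝ) (hδ : 0 < δ) (hgap : ∀ j, j ≠ i → |ℓ j| + δ ≤ |ℓ i|)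
    (lam : ℝ) (hlam : 30 * (d : ℝ) ^ 2 ≤ Real.exp (lam * δ))
    (p : I) (hp : criticalParam d < p) (v v₁ : Fin d → ℝ)
    (hv : IsVelocity ℓ lam p v) (hv₁ : IsVelocity ℓ lam 1 v₁) :
    ∑ j, v j * ℓ j + δ / 8 * (1 - (p : ℝ)) ≤ ∑ j, v₁ j * ℓ j := by
  classical
  obtain ⟨j₀, hj₀⟩ : ∃ j : Fin d, j ≠ i := by
    by_contra h
    push Not at h
    have h1 : (⟨0, by omega⟩ : Fin d) = i := h _
    have h2 : (⟨1, by omega⟩ : Fin d) = i := h _
    have h3 := congrArg Fin.val (h1.trans h2.symm)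
    simp at h3
  have hle : δ ≤ |ℓ i| := by
    have := hgap j₀ hj₀
    linarith [abs_nonneg (ℓ j₀)]
  have hG : ∃ F : Fin d × Bool, Gap ℓ F δ := by
    rcases le_or_gt 0 (ℓ i) with hi | hi
    · refine ⟨(i, true), hδ, ?_, ?_⟩
      · rintro ⟨j, b⟩ hD
        have e1 : gain ℓ (i, true) = ℓ i := by simp [gain]
        rw [e1]
        rw [abs_of_nonneg hi] at hle hgap
        by_cases hj : j = i
        · subst hj
          have hb : b = false := by
            cases b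
            · rfl
            · exact absurd rfl hD
          subst hb
          simp only [gain, Bool.false_eq_true, if_false]
          linarith
        · have h1 := hgap j hj
          have h2 := le_abs_self (ℓ j)
          have h3 := neg_le_abs (ℓ j)
          cases b
          · simp only [gain, Bool.false_eq_true, if_false]; linarith
          · simp only [gain, if_true]; linarith
      · rw [abs_of_nonneg hi] at hle
        simpa [gain] using hle
    · refine ⟨(i, false), hδ, ?_, ?_⟩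
      · rintro ⟨j, b⟩ hD
        have e1 : gain ℓ (i, false) = - ℓ i := by simp [gain]
        rw [e1]
        rw [abs_of_neg hi] at hle hgap
        by_cases hj : j = i
        · subst hj
          have hb : b = true := by
            cases b
            · exact absurd rfl hD
            · rfl
          subst hb
          simp only [gain, if_true]
          linarith
        · have h1 := hgap j hj
          have h2 := le_abs_self (ℓ j)
          have h3 := neg_le_abs (ℓ j)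
          cases b
          · simp only [gain, Bool.false_eq_true, if_false]; linarith
          · simp only [gain, if_true]; linarith
      · rw [abs_of_neg hi] at hle
        simpa [gain] using hle
  obtain ⟨F, hF⟩ := hG
  have := strong_speed hd hF hlam hp hv hv₁
  linarith

lemma every_case {d : ℕ} (hd : 2 ≤ d) (ℓ : Fin d → ℝ) (hunit : ∑ j, ℓ j ^ 2 = 1) :
    (∃ M δ : ℝ, 0 < δ ∧ δ ≤ M ∧ (∃ i, |ℓ i| = M) ∧ ∀ j, |ℓ j| = M ∨ |ℓ j| + δ ≤ M) ∧
    ∀ M δ : ℝ, 0 < δ → δ ≤ M → (∃ i, |ℓ i| = M) → (∀ j, |ℓ j| = M ∨ |ℓ j| + δ ≤ M) →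
      ∀ lam : ℝ, 30000 * (d : ℝ) ^ 6 * (192 * (d : ℝ) ^ 4) ^ (2 * d) ≤ Real.exp (lam * δ) →
      ∀ p : I, criticalParam d < p → ∀ v v₁ : Fin d → ℝ,
        IsVelocity ℓ lam p v → IsVelocity ℓ lam 1 v₁ →
        ∑ j, v₁ j * ℓ j < M ∧
        ∑ j, v j * ℓ j + (M - ∑ j, v₁ j * ℓ j) / (12 * (d : ℝ) ^ 2) * (1 - (p : ℝ)) ≤
          ∑ j, v₁ j * ℓ j := by
  classical
  constructor
  · have : Nonempty (Fin d) := ⟨⟨0, by omega⟩⟩
    obtain ⟨i, hi⟩ := Finite.exists_max fun j => |ℓ j|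
    have hM : 0 < |ℓ i| := by
      by_contra h
      push Not at h
      have h1 : ∀ j, ℓ j = 0 := fun j =>
        abs_eq_zero.1 (le_antisymm ((hi j).trans h) (abs_nonneg _))
      have h2 : ∑ j, ℓ j ^ 2 = 0 := Finset.sum_eq_zero fun j _ => by rw [h1 j]; norm_num
      rw [h2] at hunit
      exact zero_ne_one hunit
    set f : Fin d → ℝ := fun j => if |ℓ j| = |ℓ i| then |ℓ i| else |ℓ i| - |ℓ j| with hf
    obtain ⟨k, hk⟩ := Finite.exists_min f
    refine ⟨|ℓ i|, f k, ?_, ?_, ⟨i, rfl⟩, ?_⟩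
    · simp only [hf]
      split_ifs with h
      · exact hM
      · have h1 : |ℓ k| < |ℓ i| := lt_of_le_of_ne (hi k) h
        linarith
    · have h1 := hk i
      have h2 : f i = |ℓ i| := by simp [hf]
      rw [h2] at h1
      exact h1
    · intro j
      by_cases h : |ℓ j| = |ℓ i|
      · exact Or.inl h
      · right
        have h1 := hk j
        have h2 : f j = |ℓ i| - |ℓ j| := by simp [hf, h]
        rw [h2] at h1
        linarith
  · intro M δ hδ hδM hex hgap lam hlam p hp v v₁ hv hv₁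
    have hG : GapJ ℓ (Finset.univ.filter fun D => gain ℓ D = M) M δ := by
      refine ⟨hδ, ?_, ?_, ?_, hδM⟩
      · obtain ⟨i, hi⟩ := hex
        rcases le_or_gt 0 (ℓ i) with h | h
        · refine ⟨(i, true), Finset.mem_filter.2 ⟨Finset.mem_univ _, ?_⟩⟩
          rw [abs_of_nonneg h] at hi
          simpa [gain] using hi
        · refine ⟨(i, false), Finset.mem_filter.2 ⟨Finset.mem_univ _, ?_⟩⟩
          rw [abs_of_neg h] at hi
          simpa [gain] using hi
      · intro D hD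
        exact (Finset.mem_filter.1 hD).2
      · rintro ⟨j, b⟩ hD
        have hD' : gain ℓ (j, b) ≠ M := fun h =>
          hD (Finset.mem_filter.2 ⟨Finset.mem_univ _, h⟩)
        have h2 := le_abs_self (ℓ j)
        have h3 := neg_le_abs (ℓ j)
        rcases hgap j with h | h
        · have h4 : gain ℓ (j, b) = -M := by
            rcases abs_choice (ℓ j) with h5 | h5
            · rw [h5] at h
              cases b
              · simp only [gain, Bool.false_eq_true, if_false]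
                rw [h]
              · exact absurd (by simpa [gain] using h) hD'
            · rw [h5] at h
              cases b
              · exact absurd (by simpa [gain] using h) hD'
              · simp only [gain, if_true]
                linarith
          rw [h4]
          linarith
        · cases b
          · simp only [gain, Bool.false_eq_true, if_false]; linarith
          · simp only [gain, if_true]; linarith
    exact strong_all hd hG hlam hp hv hv₁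

theorem result {d : ℕ} (hd : 2 ≤ d) :
    (∃ lam₀ : ℝ, 0 < lam₀ ∧ ∃ c : ℝ, 0 < c ∧
      ∀ ℓ : Fin d → ℝ, ∑ j, ℓ j ^ 2 = 1 → ∀ lam : ℝ, lam₀ ≤ lam →
      ∀ p : I, criticalParam d < p → ∀ v v₁ : Fin d → ℝ,
        IsVelocity ℓ lam p v → IsVelocity ℓ lam 1 v₁ →
        ∑ j, v j * ℓ j + c * Real.exp (-(2 * lam)) * (1 - (p : ℝ)) ≤ ∑ j, v₁ j * ℓ j) ∧
    (∀ ℓ : Fin d → ℝ, ∑ j, ℓ j ^ 2 = 1 →
      ∀ M δ : ℝ, 0 < δ → δ ≤ M → (∃ i, |ℓ i| = M) → (∀ j, |ℓ j| = M ∨ |ℓ j| + δ ≤ M) →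
      ∀ lam : ℝ, 30000 * (d : ℝ) ^ 6 * (192 * (d : ℝ) ^ 4) ^ (2 * d) ≤ Real.exp (lam * δ) →
      ∀ p : I, criticalParam d < p → ∀ v v₁ : Fin d → ℝ,
        IsVelocity ℓ lam p v → IsVelocity ℓ lam 1 v₁ →
        ∑ j, v₁ j * ℓ j < M ∧
        ∑ j, v j * ℓ j + (M - ∑ j, v₁ j * ℓ j) / (12 * (d : ℝ) ^ 2) * (1 - (p : ℝ)) ≤
          ∑ j, v₁ j * ℓ j) ∧
    ∀ ℓ : Fin d → ℝ, ∑ j, ℓ j ^ 2 = 1 →
      ∀ (i : Fin d) (δ : ℝ), 0 < δ → (∀ j, j ≠ i → |ℓ j| + δ ≤ |ℓ i|) →
      ∀ lam : ℝ, 30 * (d : ℝ) ^ 2 ≤ Real.exp (lam * δ) →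
      ∀ p : I, criticalParam d < p → ∀ v v₁ : Fin d → ℝ,
        IsVelocity ℓ lam p v → IsVelocity ℓ lam 1 v₁ →
        ∑ j, v j * ℓ j + δ / 8 * (1 - (p : ℝ)) ≤ ∑ j, v₁ j * ℓ j := by
  refine ⟨Pool.Agent.P2ec0u.uniform_speed hd, fun ℓ hunit => (every_case hd ℓ hunit).2, ?_⟩
  exact fun ℓ hunit i δ hδ hgap lam hlam p hp v v₁ hv hv₁ =>
    unique_case hd ℓ hunit i δ hδ hgap lam hlam p hp v v₁ hv hv₁

end Pool.Agent.Results.MP_2ec0f3_pr.StrongBias
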